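import Pool.Agent.H948.HS.Stm

/-!
# Straightness at one scale: statement STR of project HS (helper948)
-/

set_option autoImplicit false

namespace Pool.Agent.H229.HS

open Pool.Agent.H948.HS
open MeasureTheory ProbabilityTheory Set Filter Metric
open scoped ENNReal NNReal Topology RealInnerProductSpace

variable {m : ℕ}

theorem straight_of (D : E m) (v l ζ' ζ0 : ℝ) (hv : 0 < v) (hv1 : v ≤ 1) (hl : 0 ≤ l)
    (hζ0 : 0 < ζ0) (hζ01 : ζ0 ≤ 1) (hζ' : ζ' = ζ0 ^ 2 / 8)
    (h1 : (v - ζ') * l ≤ ⟪e0 m, D⟫) (h2 : ‖D‖ ≤ (v + ζ') * l) :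
    ‖D - (v * l) • e0 m‖ ≤ ζ0 * l := by
  have hζp : 0 < ζ' := by rw [hζ']; positivity
  have hζ1 : ζ' ≤ 1 := by rw [hζ']; nlinarith
  have key : ‖D - (v * l) • e0 m‖ ^ 2 ≤ (ζ0 * l) ^ 2 := by
    rw [norm_sub_sq_real, inner_smul_right, norm_smul, norm_e0, real_inner_comm]
    have h3 : ‖D‖ ^ 2 ≤ ((v + ζ') * l) ^ 2 := by
      apply pow_le_pow_left₀ (norm_nonneg _) h2
    have h4 : v * l * ((v - ζ') * l) ≤ v * l * ⟪e0 m, D⟫ :=
      mul_le_mul_of_nonneg_left h1 (by positivity)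
    have h5 : (‖v * l‖ * 1) ^ 2 = (v * l) ^ 2 := by
      rw [mul_one, Real.norm_eq_abs, sq_abs]
    rw [h5]
    have h6 : (4 * v * ζ' + ζ' ^ 2) ≤ ζ0 ^ 2 := by
      have : ζ' ^ 2 ≤ ζ' := by nlinarith
      have : v * ζ' ≤ ζ' := by nlinarith
      have : ζ0 ^ 2 = 8 * ζ' := by rw [hζ']; ring
      nlinarith
    have h7 : (4 * v * ζ' + ζ' ^ 2) * l ^ 2 ≤ ζ0 ^ 2 * l ^ 2 :=
      mul_le_mul_of_nonneg_right h6 (by positivity)
    nlinarith
  exact le_of_sq_le_sq key (by positivity)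

theorem sum_blocks (u : Om m) (l k : ℕ) :
    ∑ i ∈ Finset.range k, ht u (i * l) ((i + 1) * l) = ht u 0 (k * l) := by
  induction k with
  | zero => simp [ht_self]
  | succ k ih =>
    rw [Finset.sum_range_succ, ih]
    exact ht_add u (Nat.zero_le _) (Nat.mul_le_mul_right l (Nat.le_succ k))

open Classical in
/-- the fast blocks -/
noncomputable def fast (v κ : ℝ) (l : ℕ) (u : Om m) (k : ℕ) : Finset ℕ :=
  (Finset.range k).filter fun i => (v + κ) * l ≤ ‖S u (i * l) ((i + 1) * l)‖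

theorem bad_count (u : Om m) (v κ ζ' ζ0 ζ b : ℝ) (l k : ℕ) (hv : 0 < v) (hv1 : v ≤ 1)
    (hl : 1 ≤ l) (hζ0 : 0 < ζ0) (hζ01 : ζ0 ≤ 1) (hζ0ζ : ζ0 ≤ ζ) (hζ' : ζ' = ζ0 ^ 2 / 8)
    (hκ : 0 < κ) (hκζ : κ ≤ ζ') (hκb : 4 * κ ≤ b * ζ')
    (hh : (v - κ) * ((k * l : ℕ) : ℝ) ≤ ht u 0 (k * l))
    (hf : ((fast v κ l u k).card : ℝ) ≤ κ * k) :
    (({i : ℕ | i < k ∧ bad v ζ l u i}.ncard : ℕ) : ℝ) ≤ b * k := by
  classical
  have hζp : 0 < ζ' := by rw [hζ']; positivity
  have hζ1 : ζ' ≤ 1 := by rw [hζ']; nlinarith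
  have hlpos : (0 : ℝ) < l := by exact_mod_cast hl
  set slow : Finset ℕ := (Finset.range k).filter fun i =>
    ‖S u (i * l) ((i + 1) * l)‖ < (v + κ) * l ∧ ht u (i * l) ((i + 1) * l) < (v - ζ') * l
    with hslow
  have hblock : ∀ i : ℕ, ‖S u (i * l) ((i + 1) * l)‖ ≤ l := by
    intro i
    refine (norm_S_le u _ _).trans ?_
    have : (i + 1) * l - i * l = l := by rw [Nat.add_mul, Nat.one_mul]; omega
    rw [this]
  -- the bad blocks are fast or slow
  have hsub : {i : ℕ | i < k ∧ bad v ζ l u i} ⊆ ((fast v κ l u k ∪ slow : Finset ℕ) : Set ℕ) := by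
    rintro i ⟨hi, hb⟩
    rw [Finset.mem_coe, Finset.mem_union]
    by_contra hcon
    rw [not_or] at hcon
    obtain ⟨h1, h2⟩ := hcon
    simp only [fast, Finset.mem_filter, Finset.mem_range, not_and, not_le] at h1
    have h1' := h1 hi
    simp only [hslow, Finset.mem_filter, Finset.mem_range, not_and, not_lt] at h2
    have h2' := h2 hi h1'
    have h3 : ‖S u (i * l) ((i + 1) * l) - (v * l) • e0 m‖ ≤ ζ0 * l := by
      refine straight_of _ v l ζ' ζ0 hv hv1 hlpos.le hζ0 hζ01 hζ' ?_ ?_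
      · rw [← ht_eq_inner]; exact h2'
      · refine h1'.le.trans ?_
        exact mul_le_mul_of_nonneg_right (by linarith) hlpos.le
    have h4 : ζ * l < ‖S u (i * l) ((i + 1) * l) - (v * l) • e0 m‖ := hb
    have h5 : ζ0 * l ≤ ζ * l := mul_le_mul_of_nonneg_right hζ0ζ hlpos.le
    linarith
  have hcard : (({i : ℕ | i < k ∧ bad v ζ l u i}.ncard : ℕ) : ℝ) ≤
      (fast v κ l u k).card + slow.card := by
    have h1 := Set.ncard_le_ncard hsub (Finset.finite_toSet _)
    rw [Set.ncard_coe_finset] at h1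
    have h2 := Finset.card_union_le (fast v κ l u k) slow
    exact_mod_cast h1.trans h2
  -- the heights
  have hpt : ∀ i ∈ Finset.range k,
      (if i ∈ slow then ζ' * l else 0) - (if i ∈ fast v κ l u k then (l : ℝ) else 0) ≤
        (v + κ) * l - ht u (i * l) ((i + 1) * l) := by
    intro i hi
    have hik := Finset.mem_range.1 hi
    have hle := ht_le_norm u (i * l) ((i + 1) * l)
    have hle2 := hblock i
    have hvl : 0 ≤ (v + κ) * l := by positivity
    by_cases hfi : i ∈ fast v κ l u k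
    · have hns : i ∉ slow := by
        intro hs
        have h1 := (Finset.mem_filter.1 hs).2.1
        have h2 := (Finset.mem_filter.1 hfi).2
        linarith
      rw [if_neg hns, if_pos hfi]
      linarith
    · rw [if_neg hfi]
      have h1' : ‖S u (i * l) ((i + 1) * l)‖ < (v + κ) * l := by
        simp only [fast, Finset.mem_filter, Finset.mem_range, not_and, not_le] at hfi
        exact hfi hik
      by_cases hs : i ∈ slow
      · rw [if_pos hs]
        have h2 := (Finset.mem_filter.1 hs).2.2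
        nlinarith
      · rw [if_neg hs]
        linarith
  have hsum := Finset.sum_le_sum hpt
  rw [Finset.sum_sub_distrib, Finset.sum_sub_distrib, sum_blocks, Finset.sum_const,
    Finset.card_range, Finset.sum_ite_mem, Finset.sum_ite_mem, Finset.sum_const,
    Finset.sum_const] at hsum
  have e1 : Finset.range k ∩ slow = slow :=
    Finset.inter_eq_right.2 (Finset.filter_subset _ _)
  have e2 : Finset.range k ∩ fast v κ l u k = fast v κ l u k :=
    Finset.inter_eq_right.2 (Finset.filter_subset _ _)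
  rw [e1, e2] at hsum
  simp only [nsmul_eq_mul] at hsum
  push_cast at hh hsum
  have hs1 : (slow.card : ℝ) * (ζ' * l) ≤ 3 * κ * k * l := by
    have : ((fast v κ l u k).card : ℝ) * l ≤ κ * k * l :=
      mul_le_mul_of_nonneg_right hf hlpos.le
    nlinarith
  have hs2 : (slow.card : ℝ) * ζ' ≤ 3 * κ * k := by
    have : (slow.card : ℝ) * ζ' * l ≤ 3 * κ * k * l := by linarith
    exact le_of_mul_le_mul_right this hlpos
  have hs3 : (({i : ℕ | i < k ∧ bad v ζ l u i}.ncard : ℕ) : ℝ) * ζ' ≤ b * k * ζ' := by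
    have hk : (0 : ℝ) ≤ k := by positivity
    have h1 : (((fast v κ l u k).card : ℝ) + slow.card) * ζ' ≤ κ * k + 3 * κ * k := by
      have : ((fast v κ l u k).card : ℝ) * ζ' ≤ κ * k := by
        have h0 : (0 : ℝ) ≤ (fast v κ l u k).card := by positivity
        nlinarith
      linarith
    have h2 : 4 * κ * k ≤ b * ζ' * k := mul_le_mul_of_nonneg_right hκb hk
    have h3 := mul_le_mul_of_nonneg_right hcard hζp.le
    linarith
  exact le_of_mul_le_mul_right hs3 hζp

/-- the probability of a configuration of fast blocks -/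
theorem config_prob (hB : S_BLOCK) (c a : ℝ) (l k : ℕ) (F : Finset ℕ) (hF : F ⊆ Finset.range k)
    (w z : ℝ) (hw : (Pm m).real (Far m c a l) ≤ w) (hz : Z m c l ≤ z) (hw0 : 0 ≤ w)
    (hz0 : 0 ≤ z) :
    (Pm m).real {u | ∀ i < k, shift (i * l) u ∈ (open Classical in
      if i ∈ F then Far m c a l else Saw m c l)} ≤ w ^ F.card * z ^ (k - F.card) := by
  classical
  have h := hB m k (fun i => i * l) (fun _ => l)
    (fun i => if i ∈ F then Far m c a l else Saw m c l) (by
      intro i _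
      by_cases hi : i ∈ F
      · simp only [if_pos hi]
        exact ⟨meas_Far c a l, loc_Far c a l⟩
      · simp only [if_neg hi]
        exact ⟨meas_Saw c l, loc_Saw c l⟩) (by
      intro i _
      exact le_of_eq (by ring))
  rw [h]
  have h2 : ∏ i ∈ Finset.range k, (Pm m).real (if i ∈ F then Far m c a l else Saw m c l) ≤
      ∏ i ∈ Finset.range k, (if i ∈ F then w else z) := by
    refine Finset.prod_le_prod (fun i _ => measureReal_nonneg) fun i _ => ?_
    by_cases hi : i ∈ F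
    · rw [if_pos hi, if_pos hi]; exact hw
    · rw [if_neg hi, if_neg hi]; exact hz
  refine h2.trans (le_of_eq ?_)
  rw [Finset.prod_ite, Finset.prod_const, Finset.prod_const]
  have e1 : (Finset.range k).filter (fun i => i ∈ F) = F := by
    ext i
    simp only [Finset.mem_filter]
    exact ⟨fun h => h.2, fun h => ⟨hF h, h⟩⟩
  have e2 : (Finset.range k).filter (fun i => ¬ i ∈ F) = Finset.range k \ F := by
    ext i
    simp only [Finset.mem_filter, Finset.mem_sdiff]
  rw [e1, e2, Finset.card_sdiff_of_subset hF, Finset.card_range]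

/-- union bound over the sets of fast blocks -/
theorem fast_prob (hB : S_BLOCK) (c v κ : ℝ) (l k : ℕ) (θ1 z Y : ℝ) (hθ0 : 0 ≤ θ1)
    (hw : (Pm m).real (Far m c ((v + κ) * l) l) ≤ θ1 * z) (hz : Z m c l ≤ z) (hz0 : 0 ≤ z)
    (hY : ∀ j : ℕ, j ≤ k → κ * k < j → θ1 ^ j ≤ Y) (hY0 : 0 ≤ Y) :
    (Pm m).real {u | u ∈ Saw m c (k * l) ∧ κ * k < ((fast v κ l u k).card : ℝ)} ≤
      2 ^ k * (z ^ k * Y) := by
  classical
  set P : Finset (Finset ℕ) := (Finset.range k).powerset.filter fun F => κ * k < (F.card : ℝ)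
    with hP
  have hsub : {u | u ∈ Saw m c (k * l) ∧ κ * k < ((fast v κ l u k).card : ℝ)} ⊆
      ⋃ F ∈ P, {u : Om m | ∀ i < k, shift (i * l) u ∈
        (if i ∈ F then Far m c ((v + κ) * l) l else Saw m c l)} := by
    rintro u ⟨hu, hf⟩
    rw [Set.mem_iUnion₂]
    refine ⟨fast v κ l u k, ?_, ?_⟩
    · rw [hP, Finset.mem_filter, Finset.mem_powerset]
      exact ⟨Finset.filter_subset _ _, hf⟩
    · intro i hi
      have hs : shift (i * l) u ∈ Saw m c l := by
        refine saw_shift hu ?_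
        have : (i + 1) * l ≤ k * l := Nat.mul_le_mul_right l hi
        rw [Nat.add_mul, Nat.one_mul] at this
        exact this
      by_cases hif : i ∈ fast v κ l u k
      · rw [if_pos hif]
        refine ⟨hs, ?_⟩
        have h1 := (Finset.mem_filter.1 hif).2
        have e : S (shift (i * l) u) 0 l = S u (i * l) ((i + 1) * l) := by
          rw [S_shift]
          have e1 : i * l + 0 = i * l := by omega
          have e2 : i * l + l = (i + 1) * l := by ring
          rw [e1, e2]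
        change (v + κ) * l ≤ ‖S (shift (i * l) u) 0 l‖
        exact e ▸ h1
      · rw [if_neg hif]
        exact hs
  have h1 := measureReal_mono (μ := Pm m) hsub (measure_ne_top _ _)
  have h2 := measureReal_biUnion_finset_le (μ := Pm m) P fun F : Finset ℕ =>
    {u : Om m | ∀ i < k, shift (i * l) u ∈
        (if i ∈ F then Far m c ((v + κ) * l) l else Saw m c l)}
  refine h1.trans (h2.trans ?_)
  have h3 : ∀ F ∈ P, (Pm m).real {u : Om m | ∀ i < k, shift (i * l) u ∈
        (if i ∈ F then Far m c ((v + κ) * l) l else Saw m c l)} ≤ z ^ k * Y := by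
    intro F hF
    rw [hP, Finset.mem_filter, Finset.mem_powerset] at hF
    have hc : F.card ≤ k := by
      have := Finset.card_le_card hF.1
      rwa [Finset.card_range] at this
    have h4 := config_prob hB c ((v + κ) * l) l k F hF.1 (θ1 * z) z hw hz
      (mul_nonneg hθ0 hz0) hz0
    refine h4.trans ?_
    have e : (θ1 * z) ^ F.card * z ^ (k - F.card) = z ^ k * θ1 ^ F.card := by
      rw [mul_pow, mul_assoc, ← pow_add, Nat.add_sub_cancel' hc]
      ring
    rw [e]
    exact mul_le_mul_of_nonneg_left (hY _ hc hF.2) (by positivity)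
  refine (Finset.sum_le_sum h3).trans ?_
  rw [Finset.sum_const, nsmul_eq_mul]
  refine mul_le_mul_of_nonneg_right ?_ (by positivity)
  have h5 : P.card ≤ 2 ^ k := by
    rw [hP]
    refine (Finset.card_filter_le _ _).trans ?_
    rw [Finset.card_powerset, Finset.card_range]
  exact_mod_cast h5

/-- **STR** of project HS. -/
theorem s_str (hB : S_BLOCK) (hM : S_LAM) : S_STR := by
  intro m c v ζ b hc hc1 hball hζ hb
  obtain ⟨hv, hv1, hfar, -⟩ := hball
  obtain ⟨hlam, hlam1, -, -, -, hZ⟩ := hM m c hc hc1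
  -- the constants
  set ζ0 : ℝ := min ζ 1 with hζ0
  have hζ0p : 0 < ζ0 := lt_min hζ one_pos
  have hζ01 : ζ0 ≤ 1 := min_le_right _ _
  set ζ' : ℝ := ζ0 ^ 2 / 8 with hζ'
  have hζ'p : 0 < ζ' := by positivity
  set κ : ℝ := min b 1 * ζ' / 4 with hκ
  have hb1 : 0 < min b 1 := lt_min hb one_pos
  have hκp : 0 < κ := by positivity
  have hκζ : κ ≤ ζ' := by
    have : min b 1 ≤ 1 := min_le_right _ _
    rw [hκ]; nlinarith
  have hκb : 4 * κ ≤ b * ζ' := by
    have : min b 1 ≤ b := min_le_left _ _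
    rw [hκ]; nlinarith
  obtain ⟨θ1, hθ10, hθ11, n1, hn1⟩ := hfar κ hκp
  set θ2 : ℝ := θ1 ^ (κ / 2) with hθ2
  have hθ20 : 0 < θ2 := Real.rpow_pos_of_pos hθ10 _
  have hθ21 : θ2 < 1 := Real.rpow_lt_one hθ10.le hθ11 (by positivity)
  set θ3 : ℝ := Real.sqrt θ2 with hθ3
  have hθ30 : 0 < θ3 := Real.sqrt_pos.2 hθ20
  have hθ3sq : θ3 ^ 2 = θ2 := Real.sq_sqrt hθ20.le
  have hθ31 : θ3 < 1 := by
    by_contra hcon
    push Not at hcon
    nlinarith
  obtain ⟨D, hD1, hD⟩ := hZ (lam m c / θ3) (by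
    rw [lt_div_iff₀ hθ30]
    nlinarith)
  -- large `l`
  obtain ⟨n2, hn2⟩ := exists_pow_lt_of_lt_one (show (0 : ℝ) < 1 / (2 * D) by positivity) hθ31
  refine ⟨max 1 (max n1 n2), le_max_left _ _, fun l hl => ?_⟩
  have hl1 : 1 ≤ l := (le_max_left _ _).trans hl
  have hln1 : n1 ≤ l := (le_max_left _ _).trans ((le_max_right _ _).trans hl)
  have hln2 : n2 ≤ l := (le_max_right _ _).trans ((le_max_right _ _).trans hl)
  refine ⟨κ, θ3, hκp, hθ30, hθ31, 0, fun k _ => ?_⟩
  -- powers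
  have hθl : θ3 ^ l * (2 * D) ≤ 1 := by
    have h1 : θ3 ^ l ≤ θ3 ^ n2 := pow_le_pow_of_le_one hθ30.le hθ31.le hln2
    have h2 : θ3 ^ l ≤ 1 / (2 * D) := h1.trans hn2.le
    rwa [le_div_iff₀ (by positivity)] at h2
  have hzl : Z m c l ≤ (lam m c / θ2) ^ l := by
    refine (hD l).trans ?_
    have e : (lam m c / θ2) ^ l = (lam m c / θ3) ^ l * (1 / θ3) ^ l := by
      rw [← mul_pow, ← hθ3sq]
      congr 1
      field_simp
    rw [e, mul_comm D]
    refine mul_le_mul_of_nonneg_left ?_ (by positivity)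
    rw [one_div, inv_pow, ← one_div, le_div_iff₀ (by positivity)]
    have : 0 < θ3 ^ l := by positivity
    nlinarith
  have hwl : (Pm m).real (Far m c ((v + κ) * l) l) ≤ θ1 ^ l * (lam m c / θ2) ^ l := by
    refine (hn1 l hln1).trans ?_
    rw [mul_pow]
    refine mul_le_mul_of_nonneg_left ?_ (by positivity)
    refine pow_le_pow_left₀ hlam.le ?_ l
    rw [le_div_iff₀ hθ20]
    nlinarith
  have hincl : {u : Om m | u ∈ High m c ((v - κ) * ((k * l : ℕ) : ℝ)) (k * l) ∧
        b * k < (({i : ℕ | i < k ∧ bad v ζ l u i}.ncard : ℕ) : ℝ)} ⊆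
      {u | u ∈ Saw m c (k * l) ∧ κ * k < ((fast v κ l u k).card : ℝ)} := by
    rintro u ⟨⟨hu, hh⟩, hbad⟩
    refine ⟨hu, ?_⟩
    by_contra hcon
    push Not at hcon
    have := bad_count u v κ ζ' ζ0 ζ b l k hv hv1 hl1 hζ0p hζ01 (min_le_left _ _) hζ' hκp hκζ
      hκb hh hcon
    linarith
  refine (measureReal_mono hincl (measure_ne_top _ _)).trans ?_
  have hmain := fast_prob hB c v κ l k (θ1 ^ l) ((lam m c / θ2) ^ l) ((θ2 ^ 2) ^ (k * l))
    (by positivity) hwl hzl (by positivity) (by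
      intro j hjk hj
      rw [← pow_mul, mul_comm l j, pow_mul, mul_comm k l, pow_mul, ← pow_mul (θ2 ^ 2) l k,
        mul_comm l k, pow_mul]
      refine pow_le_pow_left₀ (by positivity) ?_ l
      have h1 : θ2 ^ 2 = θ1 ^ κ := by
        rw [hθ2, ← Real.rpow_natCast, ← Real.rpow_mul hθ10.le]
        congr 1
        push_cast
        ring
      rw [h1, ← Real.rpow_natCast (θ1 ^ κ), ← Real.rpow_mul hθ10.le, ← Real.rpow_natCast θ1 j]
      exact Real.rpow_le_rpow_of_exponent_ge hθ10 hθ11.le hj.le) (by positivity)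
  refine hmain.trans ?_
  have e1 : ((lam m c / θ2) ^ l) ^ k * (θ2 ^ 2) ^ (k * l) = (lam m c * θ2) ^ (k * l) := by
    rw [← pow_mul, mul_comm l k, ← mul_pow]
    congr 1
    field_simp
  rw [e1]
  have e2 : (2 : ℝ) ^ k * (lam m c * θ2) ^ (k * l) = (2 * θ3 ^ l) ^ k * (θ3 * lam m c) ^ (k * l) := by
    rw [mul_pow 2 (θ3 ^ l) k, ← pow_mul, mul_comm l k, ← hθ3sq, mul_assoc, ← mul_pow]
    congr 2
    ring
  rw [e2]
  have h6 : (2 * θ3 ^ l) ^ k ≤ 1 := by
    refine pow_le_one₀ (by positivity) ?_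
    have : 0 < θ3 ^ l := by positivity
    nlinarith
  have h7 : 0 ≤ (θ3 * lam m c) ^ (k * l) := by positivity
  nlinarith

end Pool.Agent.H229.HS
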